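import Mathlib
import Pool.Agent.U914.WP.KM
import Pool.Agent.U914.WP.HE

/-!
# Equidistribution of the lattice points on generic `k`-spheres

Let `k ≥ 2`, let `a > 0` be fixed (for instance `a = 1`), and let `f(x) = a x ^ k + θ_{k-1} x ^ (k-1) + … + θ_1 x`. The
arithmetic `k`-sphere `|m₁| ^ k + … + |m_d| ^ k = n` is the case `a = 1`, `θ = 0` of
`⌊f(|m₁|)⌋ + … + ⌊f(|m_d|)⌋ = n`. We prove that for almost all `θ ∈ ℝ ^ (k-1)` the lattice points on these spheres are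
equidistributed with a power saving: on all large spheres in every dimension `d ≥ 2k + 1`, and on almost all spheres
in every dimension `d ≥ k + 1`. Here `d = t + 1`; the last coordinate is a function of the others on the sphere, and
the points are counted in boxes of the first `t` coordinates.
-/

set_option autoImplicit false

namespace Pool.Agent.Results.MP_927be3_nt.Equidistribution

open MeasureTheory Filter

/-- The lattice points `(x, y)` with `x` in the box `∏ (U i, V i]` and `y > 0` on the sphere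
`⌊f(x₁)⌋ + … + ⌊f(x_t)⌋ + ⌊f(y)⌋ = n`, where `f(x) = a x ^ k + θ_{k-1} x ^ (k-1) + … + θ_1 x`. -/
def Pts (k t : ℕ) (a : ℝ) (θ : Fin (k - 1) → ℝ) (U V : Fin t → ℕ) (n : ℕ) : Set ((Fin t → ℕ) × ℕ) :=
  {p | (∀ i, U i < p.1 i ∧ p.1 i ≤ V i) ∧ 0 < p.2 ∧
    ∑ i, ⌊a * (p.1 i : ℝ) ^ k + ∑ j : Fin (k - 1), θ j * (p.1 i : ℝ) ^ ((j : ℕ) + 1)⌋ +
      ⌊a * (p.2 : ℝ) ^ k + ∑ j : Fin (k - 1), θ j * (p.2 : ℝ) ^ ((j : ℕ) + 1)⌋ = (n : ℤ)}

/-- The expected number: the integral over the box of the density `(n - a (u₁ ^ k + … + u_t ^ k)) ^ (1/k - 1)`, times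
`1 / (k a ^ (1/k))`. -/
noncomputable def Main (k t : ℕ) (a : ℝ) (U V : Fin t → ℕ) (n : ℕ) : ℝ :=
  1 / (k * a ^ ((1 : ℝ) / k)) *
    ∫ u in Set.pi Set.univ (fun i => Set.Ioc (U i : ℝ) (V i)), ((n : ℝ) - a * ∑ i, u i ^ k) ^ ((1 : ℝ) / k - 1)

theorem main_eq (d t : ℕ) (a : ℝ) (ha : 0 < a) (U V : Fin t → ℕ) (n : ℕ) (c : ℝ) (hc : 0 < c)
    (hV : a * ∑ i, (V i : ℝ) ^ (d + 1) ≤ n - c) :
    ∫ u in Set.pi Set.univ (fun i => Set.Ioc (U i : ℝ) (V i)),
      Pool.Agent.U914.WP.rh (d + 1) a (n - a * ∑ i, u i ^ (d + 1)) = Main (d + 1) t a U V n := by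
  unfold Main
  rw [← integral_const_mul]
  apply setIntegral_congr_fun (MeasurableSet.univ_pi fun _ => measurableSet_Ioc)
  intro u hu
  apply Pool.Agent.U914.WP.rh_eq (d + 1) (by omega) a _ ha
  have h1 : ∑ i, u i ^ (d + 1) ≤ ∑ i, (V i : ℝ) ^ (d + 1) := by
    apply Finset.sum_le_sum
    intro i _
    have h2 := hu i (Set.mem_univ i)
    have h3 : (0 : ℝ) ≤ U i := Nat.cast_nonneg _
    exact pow_le_pow_left₀ (by linarith [h2.1]) h2.2 _
  have h4 := mul_le_mul_of_nonneg_left h1 ha.le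
  linarith

theorem pts_eq (d t : ℕ) (a : ℝ) (θ : Fin d → ℝ) (U V : Fin t → ℕ) (n : ℕ) :
    (Pts (d + 1) t a θ U V n).ncard =
      Pool.Agent.U914.WP.rC t (Pool.Agent.U914.WP.fl d a θ) (fun i => Finset.Ioc (U i) (V i)) n := by
  unfold Pool.Agent.U914.WP.rC
  congr 1
  ext p
  unfold Pts
  simp only [Set.mem_ofPred_eq, Finset.mem_Ioc]
  rfl

/-- **Equidistribution of the lattice points on generic `k`-spheres.** Let `k ≥ 2` and `a > 0`. There is `τ > 0` such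
that for almost all `θ ∈ ℝ ^ (k-1)` (Lebesgue measure), with `f(x) = a x ^ k + θ_{k-1} x ^ (k-1) + … + θ_1 x`, for all
`t` and all `η > 0`:

* if `t ≥ 2k` (dimension `t + 1 ≥ 2k + 1`), then for all large `n` and all boxes `∏ (U i, V i]` with
  `a (V₁ ^ k + … + V_t ^ k) ≤ (1 - η) n` the number of lattice points of the sphere of level `n` in the box is the
  expected number with an error of at most `n ^ ((t + 1)/k - 1 - τ)`;
* if `t ≥ k` (dimension `t + 1 ≥ k + 1`), then for all large `N` and all boxes with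
  `a (V₁ ^ k + … + V_t ^ k) ≤ (1 - η) N` the sum over `N ≤ n ≤ 2N` of the squares of the errors is at most
  `N ^ (2 (t + 1)/k - 1 - τ)`. -/
theorem result (k : ℕ) (hk : 2 ≤ k) (a : ℝ) (ha : 0 < a) :
    ∃ τ : ℝ, 0 < τ ∧ ∀ᵐ θ : Fin (k - 1) → ℝ, ∀ t : ℕ, ∀ η : ℝ, 0 < η →
      (2 * k ≤ t → ∀ᶠ n : ℕ in atTop, ∀ U V : Fin t → ℕ, a * ∑ i, (V i : ℝ) ^ k ≤ (1 - η) * n →
        |((Pts k t a θ U V n).ncard : ℝ) - Main k t a U V n| ≤ (n : ℝ) ^ (((t : ℝ) + 1) / k - 1 - τ)) ∧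
      (k ≤ t → ∀ᶠ N : ℕ in atTop, ∀ U V : Fin t → ℕ, a * ∑ i, (V i : ℝ) ^ k ≤ (1 - η) * N →
        ∑ n ∈ Finset.Icc N (2 * N), (((Pts k t a θ U V n).ncard : ℝ) - Main k t a U V n) ^ 2 ≤
          (N : ℝ) ^ (2 * ((t : ℝ) + 1) / k - 1 - τ)) := by
  obtain ⟨d, rfl⟩ : ∃ d, k = d + 1 := ⟨k - 1, by omega⟩
  obtain ⟨δ, hδ0, hδ1, hdom⟩ := Pool.Agent.U914.WP.dom_ae d (by omega) a ha
  have hmv := Pool.Agent.U914.WP.mv_ae d a ha
  refine ⟨δ / (2 * ((d + 1 : ℕ) : ℝ)), by positivity, ?_⟩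
  filter_upwards [hdom, hmv] with θ hdom hmv t η hη
  have hη' : 0 < min η 1 := lt_min hη one_pos
  have hη1 : min η 1 ≤ 1 := min_le_right _ _
  have hη2 : min η 1 ≤ η := min_le_left _ _
  constructor
  · intro ht
    filter_upwards [Pool.Agent.U914.WP.eq_box d (by omega) a ha δ hδ0 hδ1 θ hdom hmv t ht (min η 1) hη' hη1,
      eventually_ge_atTop 1] with n hn hn1 U V hUV
    have hn0 : (0 : ℝ) < n := by exact_mod_cast hn1
    have h1 : a * ∑ i, (V i : ℝ) ^ (d + 1) ≤ (1 - min η 1) * n := by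
      refine hUV.trans ?_
      apply mul_le_mul_of_nonneg_right _ hn0.le
      linarith
    have h2 := hn U V h1
    rw [main_eq d t a ha U V n (min η 1 * n) (by positivity) (by linarith)] at h2
    rw [pts_eq]
    refine h2.trans (le_of_eq ?_)
    push_cast
    rfl
  · intro ht
    filter_upwards [Pool.Agent.U914.WP.eq_ms d (by omega) a ha δ hδ0 hδ1 θ hdom hmv t ht (min η 1) hη' hη1,
      eventually_ge_atTop 1] with N hN hN1 U V hUV
    have hN0 : (0 : ℝ) < N := by exact_mod_cast hN1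
    have h1 : a * ∑ i, (V i : ℝ) ^ (d + 1) ≤ (1 - min η 1) * N := by
      refine hUV.trans ?_
      apply mul_le_mul_of_nonneg_right _ hN0.le
      linarith
    have h2 := hN U V h1
    have h3 : ∑ n ∈ Finset.Icc N (2 * N), (((Pts (d + 1) t a θ U V n).ncard : ℝ) - Main (d + 1) t a U V n) ^ 2 =
        ∑ n ∈ Finset.Icc N (2 * N), ((Pool.Agent.U914.WP.rC t (Pool.Agent.U914.WP.fl d a θ)
          (fun i => Finset.Ioc (U i) (V i)) n : ℝ) - ∫ u in Set.pi Set.univ (fun i => Set.Ioc (U i : ℝ) (V i)),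
            Pool.Agent.U914.WP.rh (d + 1) a (n - a * ∑ i, u i ^ (d + 1))) ^ 2 := by
      apply Finset.sum_congr rfl
      intro n hn
      have h4 : (N : ℝ) ≤ n := by exact_mod_cast (Finset.mem_Icc.1 hn).1
      rw [pts_eq, main_eq d t a ha U V n (min η 1 * N) (by positivity) (by linarith)]
    rw [h3]
    refine h2.trans (le_of_eq ?_)
    push_cast
    rfl

end Pool.Agent.Results.MP_927be3_nt.Equidistribution
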