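import Mathlib
import Pool.Agent.TH854.KS.K7

open Finset

namespace Pool.Agent.Results.MP_927be3_nt.LocalBounds

/-- The arithmetic `k`-sphere `S_{k,d}(r)` of radius `r` in dimension `d`. -/
def sphere (k d : ℕ) (r : ℝ) : Set (Fin d → ℤ) := {m | ∑ i, |(m i : ℝ)| ^ k = r ^ k}

/-- `N_{k,d}(r) ≍ r^{d-k}`: there are `0 < c ≤ C` and `r₀` with `c r^{d-k} ≤ N_{k,d}(r) ≤ C r^{d-k}`
for all radii `r ≥ r₀`, `r > 0`, with non-empty `S_{k,d}(r)`. -/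
def OrderHolds (k d : ℕ) : Prop :=
  ∃ c C r₀ : ℝ, 0 < c ∧ c ≤ C ∧ ∀ r : ℝ, 0 < r → r₀ ≤ r → (sphere k d r).Nonempty →
    c * r ^ ((d : ℝ) - k) ≤ ((sphere k d r).ncard : ℝ) ∧
      ((sphere k d r).ncard : ℝ) ≤ C * r ^ ((d : ℝ) - k)

/-- If the order of magnitude `N_{k,d}(r) ≍ r^{d-k}` holds in dimension `d` for a degree `k ≥ 3`,
then `d ≥ 2^{t+2}` for all `t ≥ 1` with `2^t ∣ k`, and `d ≥ p^{t+1}` for all primes `p` and all `t`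
with `(p-1) p^t ∣ k`. In particular `d_0(k) ≥ 4 k` for all powers of two `k ≥ 4`. -/
theorem result (k : ℕ) (hk : 3 ≤ k) (d : ℕ) (hd : 1 ≤ d) (h : OrderHolds k d) :
    (∀ t : ℕ, 1 ≤ t → 2 ^ t ∣ k → 2 ^ (t + 2) ≤ d) ∧
      ∀ p t : ℕ, p.Prime → (p - 1) * p ^ t ∣ k → p ^ (t + 1) ≤ d := by
  obtain ⟨c, C, r₀, hc, _, h⟩ := h
  have hh : Pool.Agent.TH854.KS.Holds k d := ⟨c, C, r₀, hc, h⟩
  have hd2 : k + 1 ≤ d := by
    by_contra hcon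
    exact Pool.Agent.TH854.KS.fails_low hk hd (by omega) hh
  exact ⟨fun t ht hdvd => Pool.Agent.TH854.KS.bound_two hk hd2 hh ht hdvd,
    fun p t hp hdvd => Pool.Agent.TH854.KS.bound_odd hk hd2 hh hp hdvd⟩

end Pool.Agent.Results.MP_927be3_nt.LocalBounds
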