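import Pool.Agent.U160.WP.Fin

/-!
# Lattice points on the `k`-spheres of the perturbed integers `n + {P(n)}`

For almost every real polynomial `P` of large degree (and for almost every independent uniform perturbation) the
number of points of the perturbed lattice near the `k`-sphere has the expected order of magnitude for every large
radius exactly in the dimensions `d ≥ k + 1`, and there it is asymptotic to the volume.
-/

set_option autoImplicit false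

namespace Pool.Agent.Results.MP_927be3_nt.PerturbedSpheres

open MeasureTheory ProbabilityTheory Finset Filter Topology

/-- the fractional part of `x_1 n + x_2 n^2 + ... + x_r n^r` (`x_j` is `x (j-1)`) -/
noncomputable def frac {r : ℕ} (x : Fin r → ℝ) (n : ℕ) : ℝ := Int.fract (∑ j : Fin r, x j * (n : ℝ) ^ (j.val + 1))

/-- the number of `n ∈ {1,2,...}^d` with `|∑ (n_i + θ(n_i))^k - lam| ≤ η` -/
noncomputable def count (θ : ℕ → ℝ) (k d : ℕ) (lam η : ℝ) : ℕ :=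
  {n : Fin d → ℕ | (∀ i, 1 ≤ n i) ∧ |∑ i, ((n i : ℝ) + θ (n i)) ^ k - lam| ≤ η}.ncard

/-- the count has order of magnitude `ρ^(d-k)` for all large radii `ρ`, for every thickness `η` -/
def Holds (θ : ℕ → ℝ) (k d : ℕ) : Prop := ∀ η : ℝ, 0 < η → ∃ c C ρ₀ : ℝ, 0 < c ∧ 0 < C ∧ ∀ ρ : ℝ, ρ₀ ≤ ρ →
  c * ρ ^ ((d : ℝ) - k) ≤ (count θ k d (ρ ^ k) η : ℝ) ∧ (count θ k d (ρ ^ k) η : ℝ) ≤ C * ρ ^ ((d : ℝ) - k)

/-- the asymptotic formula for the count, for every thickness `η` -/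
def Asymptotic (θ : ℕ → ℝ) (k d : ℕ) : Prop := ∀ η : ℝ, 0 < η →
  Tendsto (fun lam : ℝ => (count θ k d lam η : ℝ) / lam ^ ((d : ℝ) / k - 1)) atTop
    (𝓝 (2 * η * Real.Gamma (1 + 1 / k) ^ d / Real.Gamma ((d : ℝ) / k)))

/-- **The minimal dimension is `k + 1` for almost every perturbation.** -/
theorem result :
    (∀ r : ℕ, ∀ᵐ x : Fin r → ℝ, ∀ k d : ℕ, 1 ≤ k → 2 * (k + 1) * d ≤ r →
      (Holds (frac x) k d ↔ k + 1 ≤ d) ∧ (k + 1 ≤ d → Asymptotic (frac x) k d)) ∧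
    (∀ (Ω : Type) [MeasurableSpace Ω] (P : Measure Ω) [IsProbabilityMeasure P] (X : ℕ → Ω → ℝ),
      (∀ n, Measurable (X n)) → iIndepFun X P → (∀ n, P.map (X n) = volume.restrict (Set.Icc 0 1)) →
      ∀ᵐ ω ∂P, ∀ k d : ℕ, 1 ≤ k →
        (Holds (fun n => X n ω) k d ↔ k + 1 ≤ d) ∧ (k + 1 ≤ d → Asymptotic (fun n => X n ω) k d)) ∧
    (∀ θ : ℕ → ℝ, (∀ n, 0 ≤ θ n) → ∀ k d : ℕ, 1 ≤ k → d ≤ k → ∀ η : ℝ, 0 < η → η < 1 / 2 →
      ∀ R : ℝ, ∃ lam : ℝ, R ≤ lam ∧ count θ k d lam η = 0) := by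
  have hempty : ∀ θ : ℕ → ℝ, (∀ n, 1 ≤ n → 0 ≤ θ n) → ∀ k d : ℕ, 1 ≤ k → d ≤ k → ∀ η : ℝ, 0 < η → η < 1 / 2 →
      ∀ R : ℝ, ∃ lam : ℝ, R ≤ lam ∧ count θ k d lam η = 0 := by
    intro θ hθ k d hk hd η h1 h2 R
    obtain ⟨lam, h3, h4⟩ := Pool.Agent.U160.WP.empty_shells hθ hk hd h1 h2 R
    have h5 : (count θ k d lam η : ℝ) = 0 := h4
    exact ⟨lam, h3, by exact_mod_cast h5⟩
  have hnot : ∀ θ : ℕ → ℝ, (∀ n, 1 ≤ n → 0 ≤ θ n) → ∀ k d : ℕ, 1 ≤ k → Holds θ k d → k + 1 ≤ d := by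
    intro θ hθ k d hk hH
    by_contra hd
    obtain ⟨c, C, ρ₀, hc, hC, h⟩ := hH (1 / 4) (by norm_num)
    obtain ⟨lam, h1, h2⟩ := hempty θ hθ k d hk (by omega) (1 / 4) (by norm_num) (by norm_num) (max ρ₀ 1 ^ k)
    have hk0 : (0 : ℝ) < k := by exact_mod_cast hk
    have hm1 : (1 : ℝ) ≤ max ρ₀ 1 := le_max_right _ _
    have hlam0 : 0 < lam := lt_of_lt_of_le (by positivity) h1
    set ρ : ℝ := lam ^ (1 / (k : ℝ)) with hρ
    have hρk : ρ ^ k = lam := by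
      rw [hρ, ← Real.rpow_natCast, ← Real.rpow_mul hlam0.le, one_div, inv_mul_cancel₀ hk0.ne', Real.rpow_one]
    have hρ0 : 0 < ρ := by positivity
    have h3 : ρ₀ ≤ ρ := by
      have h4 : max ρ₀ 1 ≤ ρ := by
        rw [← hρk] at h1
        exact le_of_pow_le_pow_left₀ (by omega) hρ0.le h1
      exact (le_max_left _ _).trans h4
    have h5 := (h ρ h3).1
    rw [hρk, h2] at h5
    have h6 : 0 < c * ρ ^ ((d : ℝ) - k) := by positivity
    simp only [Nat.cast_zero] at h5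
    linarith
  have hasy : ∀ θ : ℕ → ℝ, ∀ k d : ℕ, (∀ η : ℝ, 0 < η → Tendsto (fun lam : ℝ =>
      Pool.Agent.U160.WP.cnt θ k d lam η / lam ^ ((d : ℝ) / k - 1)) atTop
      (𝓝 (2 * η * Pool.Agent.U160.WP.GG k d))) → Asymptotic θ k d := by
    intro θ k d h η hη
    have h1 := h η hη
    have h2 : 2 * η * Pool.Agent.U160.WP.GG k d =
        2 * η * Real.Gamma (1 + 1 / k) ^ d / Real.Gamma ((d : ℝ) / k) := by
      unfold Pool.Agent.U160.WP.GG; ring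
    rw [h2] at h1
    exact h1
  have hholds : ∀ θ : ℕ → ℝ, ∀ k d : ℕ, 1 ≤ k → k + 1 ≤ d → (∀ η : ℝ, 0 < η → Tendsto (fun lam : ℝ =>
      Pool.Agent.U160.WP.cnt θ k d lam η / lam ^ ((d : ℝ) / k - 1)) atTop
      (𝓝 (2 * η * Pool.Agent.U160.WP.GG k d))) → Holds θ k d := by
    intro θ k d hk hd h η hη
    have h0 := Pool.Agent.U160.WP.GG_pos hk hd
    exact Pool.Agent.U160.WP.bounds_of_tendsto hk (by positivity) (h η hη)
  refine ⟨fun r => ?_, ?_, ?_⟩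
  · filter_upwards [Pool.Agent.U160.WP.asy_poly r] with x hx k d hk hr
    refine ⟨⟨hnot _ (fun n _ => Int.fract_nonneg _) k d hk, fun hd => hholds _ k d hk hd (hx k d hk hd hr)⟩,
      fun hd => hasy _ k d (hx k d hk hd hr)⟩
  · intro Ω _ P _ X hX hind hlaw
    have hu : ∀ᵐ ω ∂P, ∀ n, 0 ≤ X n ω := by
      rw [ae_all_iff]
      intro n
      have h1 : ∀ᵐ x ∂((volume : Measure ℝ).restrict (Set.Icc 0 1)), x ∈ Set.Icc (0 : ℝ) 1 :=
        ae_restrict_mem measurableSet_Icc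
      rw [← hlaw n] at h1
      filter_upwards [ae_of_ae_map (hX n).aemeasurable h1] with ω h using h.1
    filter_upwards [hu, Pool.Agent.U160.WP.asy_iid Ω P X hX hind hlaw] with ω h1 h2 k d hk
    exact ⟨⟨hnot _ (fun n _ => h1 n) k d hk, fun hd => hholds _ k d hk hd (h2 k d hk hd)⟩,
      fun hd => hasy _ k d (h2 k d hk hd)⟩
  · intro θ hθ
    exact hempty θ (fun n _ => hθ n)

end Pool.Agent.Results.MP_927be3_nt.PerturbedSpheres
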