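import Pool.Agent.U108.KS.A

set_option autoImplicit false

/-!
# Points with restricted digits on arithmetic k-spheres

For every degree `k ≥ 2` and every base `b ≥ 2` there is a dimension `d₁` such that for all `d ≥ d₁`, all `K` and all sets
of at least two digits (depending on the place) the number of the points of EVERY arithmetic `k`-sphere in `d` dimensions
the coordinates of which are natural numbers below `b ^ K` with digits in these sets is at most a constant times the
expected number `|S|^d / b^(kK)`, where `S` is the set of such numbers, without any loss. Hence a positive proportion of the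
integers up to `d b^(kK)` are of the form `r^k` for such spheres containing such a point.

Method: the theorem `Pool.Agent.U108.DP.poly_energy` on the additive energy of the values of polynomials at integers with
restricted digits, which is minimal up to a constant.
-/

namespace Pool.Agent.Results.MP_927be3_nt.RestrictedDigitPoints

open Finset
open Pool.Agent.U108.DP (Bo poly_energy)
open Pool.Agent.U108.KS (cnt cnt_all)

/-- The integers `0 ≤ x < b ^ K` whose `i`-th digit in base `b` lies in `G i`, for all `i < K`. -/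
def Dig (b : ℕ) (G : ℕ → Finset ℕ) (K : ℕ) : Finset ℕ :=
  (range (b ^ K)).filter (fun x : ℕ => ∀ i < K, x / b ^ i % b ∈ G i)

/-- The points `m` of `ℤ^d` with `m_1^k + ... + m_d^k = n` and all coordinates in `Dig b G K`. -/
def points (k d n b : ℕ) (G : ℕ → Finset ℕ) (K : ℕ) : Finset (Fin d → ℕ) :=
  (Fintype.piFinset (fun _ : Fin d => Dig b G K)).filter (fun m => ∑ i, m i ^ k = n)

/-- The natural numbers `n` for which `points k d n b G K` is not empty. -/
def sums (k d b : ℕ) (G : ℕ → Finset ℕ) (K : ℕ) : Finset ℕ :=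
  (Fintype.piFinset (fun _ : Fin d => Dig b G K)).image (fun m => ∑ i, m i ^ k)

/-- Let `k ≥ 2` and `b ≥ 2`. There are `d₁` and `C ≥ 1` such that for all `K`, all sets `G i`, `i < K`, of at least two
digits in base `b`, and all `d ≥ d₁`:
(1) for ALL natural numbers `n` the number of the points of the sphere `m_1^k + ... + m_d^k = n` with coordinates in
`Dig b G K` is at most `C |Dig b G K|^d / b^(kK)`;
(2) at least `b^(kK) / C` natural numbers `n` (all of them are at most `d b^(kK)`) are values `m_1^k + ... + m_d^k` with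
`m_i` in `Dig b G K`. -/
theorem result (k b : ℕ) (hk : 2 ≤ k) (hb : 2 ≤ b) : ∃ d₁ : ℕ, ∃ C : ℝ, 1 ≤ C ∧ ∀ (K : ℕ) (G : ℕ → Finset ℕ),
    (∀ i < K, G i ⊆ range b ∧ 2 ≤ (G i).card) → ∀ d : ℕ, d₁ ≤ d →
      (∀ n : ℕ, ((points k d n b G K).card : ℝ) ≤ C * ((Dig b G K).card : ℝ) ^ d / ((b ^ (k * K) : ℕ) : ℝ)) ∧
      ((b ^ (k * K) : ℕ) : ℝ) / C ≤ (sums k d b G K).card ∧ ∀ n ∈ sums k d b G K, n ≤ d * b ^ (k * K) := by
  classical
  obtain ⟨r, rfl⟩ : ∃ r, k = r + 2 := ⟨k - 2, by omega⟩
  obtain ⟨p, K₀, hp, hK₀, hE⟩ := poly_energy b r hb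
  refine ⟨p + p, max 1 K₀, le_max_left _ _, ?_⟩
  intro K G hG d hd
  have hC0 : (0 : ℝ) < max 1 K₀ := lt_of_lt_of_le one_pos (le_max_left _ _)
  have hN0 : (0 : ℝ) < ((b ^ ((r + 2) * K) : ℕ) : ℝ) := by exact_mod_cast (by positivity : 0 < b ^ ((r + 2) * K))
  obtain ⟨e, rfl⟩ : ∃ e, d = p + p + e := ⟨d - (p + p), by omega⟩
  obtain ⟨F, hF⟩ : ∃ F : MvPolynomial Unit ℤ, F = MvPolynomial.X () ^ (r + 2) := ⟨_, rfl⟩
  have hdeg : F.totalDegree ≤ r + 2 := by
    rw [hF]
    exact (MvPolynomial.totalDegree_X_pow (R := ℤ) () (r + 2)).le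
  have hcoe : F.coeff (Finsupp.single () (r + 2)) = 1 := by
    rw [hF, MvPolynomial.coeff_X_pow, if_pos rfl]
  have hE1 := hE Unit K (fun _ => G) (fun _ => hG) F hdeg (Finsupp.single () (r + 2)) (by simp) (by rw [hcoe]; norm_num)
  rw [hcoe] at hE1
  have hcardB : Fintype.card {n : Unit → ℕ // n ∈ Bo b K (fun _ : Unit => G)} = (Dig b G K).card := by
    rw [Fintype.card_coe]
    unfold Bo
    rw [Fintype.card_piFinset]
    simp only [univ_unique, prod_const, card_singleton, pow_one]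
    rfl
  obtain ⟨v, hv⟩ : ∃ v : {n : Unit → ℕ // n ∈ Bo b K (fun _ : Unit => G)} → ℤ, v =
    fun n : {n : Unit → ℕ // n ∈ Bo b K (fun _ : Unit => G)} => MvPolynomial.eval (fun j => ((n : Unit → ℕ) j : ℤ)) F := ⟨_, rfl⟩
  rw [← hv, hcardB] at hE1
  have hval : ∀ n : {n : Unit → ℕ // n ∈ Bo b K (fun _ : Unit => G)}, v n = (((n : Unit → ℕ) () ^ (r + 2) : ℕ) : ℤ) := by
    intro n
    rw [hv, hF]
    simp
  have hpts : ∀ n : ℕ, (points (r + 2) (p + p + e) n b G K).card ≤ cnt v (p + p + e) (n : ℤ) := by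
    intro n
    unfold cnt
    apply card_le_card_of_surjOn (fun q : Fin (p + p + e) → {n : Unit → ℕ // n ∈ Bo b K (fun _ : Unit => G)} =>
      fun i => ((q i : Unit → ℕ) ()))
    intro m hm
    have hm' := mem_filter.1 (mem_coe.1 hm)
    have hmem : ∀ i, (fun _ : Unit => m i) ∈ Bo b K (fun _ : Unit => G) := by
      intro i
      unfold Bo
      rw [Fintype.mem_piFinset]
      intro _
      exact (Fintype.mem_piFinset.1 hm'.1) i
    refine ⟨fun i => ⟨fun _ => m i, hmem i⟩, mem_coe.2 (mem_filter.2 ⟨mem_univ _, ?_⟩), rfl⟩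
    have h1 : ∑ i, v ⟨fun _ => m i, hmem i⟩ = ∑ i, ((m i ^ (r + 2) : ℕ) : ℤ) := sum_congr rfl (fun i _ => hval _)
    rw [h1, ← Nat.cast_sum, hm'.2]
  have hup : ∀ n : ℕ, ((points (r + 2) (p + p + e) n b G K).card : ℝ) * ((b ^ ((r + 2) * K) : ℕ) : ℝ) ≤
      max 1 K₀ * ((Dig b G K).card : ℝ) ^ (p + p + e) := by
    intro n
    have h1 : ((points (r + 2) (p + p + e) n b G K).card : ℝ) ≤
        ((Dig b G K).card : ℝ) ^ e * (Pool.Agent.TH212.EH.En p v : ℝ) := by
      have h2 := (hpts n).trans (cnt_all v p e (n : ℤ))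
      rw [hcardB] at h2
      exact_mod_cast h2
    have hS0 : (0 : ℝ) ≤ ((Dig b G K).card : ℝ) ^ e := by positivity
    calc ((points (r + 2) (p + p + e) n b G K).card : ℝ) * ((b ^ ((r + 2) * K) : ℕ) : ℝ)
        ≤ (((Dig b G K).card : ℝ) ^ e * (Pool.Agent.TH212.EH.En p v : ℝ)) * ((b ^ ((r + 2) * K) : ℕ) : ℝ) :=
          mul_le_mul_of_nonneg_right h1 hN0.le
      _ = ((Dig b G K).card : ℝ) ^ e * ((Pool.Agent.TH212.EH.En p v : ℝ) * ((b ^ ((r + 2) * K) : ℕ) : ℝ)) := by ring
      _ ≤ ((Dig b G K).card : ℝ) ^ e * (K₀ * ((|(1 : ℤ)| : ℤ) : ℝ) * ((Dig b G K).card : ℝ) ^ (2 * p)) :=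
          mul_le_mul_of_nonneg_left hE1 hS0
      _ = K₀ * ((Dig b G K).card : ℝ) ^ (p + p + e) := by
          rw [abs_one, Int.cast_one, two_mul, pow_add _ (p + p) e]
          ring
      _ ≤ _ := mul_le_mul_of_nonneg_right (le_max_right _ _) (by positivity)
  have hne : 0 < (Dig b G K).card := by
    have h1 : ∀ i < K, ∃ x, x ∈ G i := fun i hi => by
      have := (hG i hi).2
      exact card_pos.1 (by omega)
    have h2 : (0 : ℝ) < Fintype.card {n : Unit → ℕ // n ∈ Bo b K (fun _ : Unit => G)} := by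
      have h3 : 0 < Fintype.card (Pool.Agent.U108.DP.Pt (Pool.Agent.U108.DP.Dx (J := Unit) K (fun _ => G))) :=
        Pool.Agent.U108.DP.card_Pt_pos _ (b := b) ⟨fun q => (hG q.2 q.2.2).1, fun q => (hG q.2 q.2.2).2⟩
      rw [← Fintype.card_congr (Pool.Agent.U108.DP.eqv (J := Unit) hb (fun _ => G) (fun _ => hG))]
      exact_mod_cast h3
    rw [hcardB] at h2
    exact_mod_cast h2
  refine ⟨fun n => ?_, ?_, ?_⟩
  · rw [le_div_iff₀ hN0]
    exact hup n
  · have h1 : ((Dig b G K).card) ^ (p + p + e) = ∑ n ∈ sums (r + 2) (p + p + e) b G K, (points (r + 2) (p + p + e) n b G K).card := by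
      have h2 : (Fintype.piFinset (fun _ : Fin (p + p + e) => Dig b G K)).card = (Dig b G K).card ^ (p + p + e) := by
        rw [Fintype.card_piFinset, prod_const, card_univ, Fintype.card_fin]
      rw [← h2]
      exact card_eq_sum_card_image (fun m : Fin (p + p + e) → ℕ => ∑ i, m i ^ (r + 2)) _
    have hP : (0 : ℝ) < ((Dig b G K).card : ℝ) ^ (p + p + e) := by
      have : (0 : ℝ) < (Dig b G K).card := by exact_mod_cast hne
      positivity
    have h3 : ((Dig b G K).card : ℝ) ^ (p + p + e) * ((b ^ ((r + 2) * K) : ℕ) : ℝ) ≤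
        (sums (r + 2) (p + p + e) b G K).card * (max 1 K₀ * ((Dig b G K).card : ℝ) ^ (p + p + e)) := by
      have h4 : ((Dig b G K).card : ℝ) ^ (p + p + e) =
          ∑ n ∈ sums (r + 2) (p + p + e) b G K, ((points (r + 2) (p + p + e) n b G K).card : ℝ) := by exact_mod_cast h1
      calc ((Dig b G K).card : ℝ) ^ (p + p + e) * ((b ^ ((r + 2) * K) : ℕ) : ℝ)
          = ∑ n ∈ sums (r + 2) (p + p + e) b G K, ((points (r + 2) (p + p + e) n b G K).card : ℝ) * ((b ^ ((r + 2) * K) : ℕ) : ℝ) := by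
            rw [h4, sum_mul]
        _ ≤ ∑ n ∈ sums (r + 2) (p + p + e) b G K, max 1 K₀ * ((Dig b G K).card : ℝ) ^ (p + p + e) :=
            sum_le_sum fun n _ => hup n
        _ = _ := by rw [sum_const, nsmul_eq_mul]
    rw [div_le_iff₀ hC0]
    have h5 : ((Dig b G K).card : ℝ) ^ (p + p + e) * ((b ^ ((r + 2) * K) : ℕ) : ℝ) ≤
        ((Dig b G K).card : ℝ) ^ (p + p + e) * ((sums (r + 2) (p + p + e) b G K).card * max 1 K₀) := by
      linarith
    exact le_of_mul_le_mul_left h5 hP
  · intro n hn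
    unfold sums at hn
    rw [mem_image] at hn
    obtain ⟨m, hm, rfl⟩ := hn
    calc ∑ i, m i ^ (r + 2) ≤ ∑ _i : Fin (p + p + e), b ^ ((r + 2) * K) := by
          apply sum_le_sum
          intro i _
          have h1 := (Fintype.mem_piFinset.1 hm) i
          unfold Dig at h1
          rw [mem_filter, mem_range] at h1
          calc m i ^ (r + 2) ≤ (b ^ K) ^ (r + 2) := Nat.pow_le_pow_left h1.1.le _
            _ = b ^ ((r + 2) * K) := by rw [← pow_mul, mul_comm]
      _ = _ := by rw [sum_const, card_univ, Fintype.card_fin, smul_eq_mul]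

end Pool.Agent.Results.MP_927be3_nt.RestrictedDigitPoints
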